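import Pool.Agent.N204.GH.Split


/-!
# The coniveau filtration and exterior products
-/

set_option linter.unusedVariables false
set_option linter.unusedSectionVars false

open CategoryTheory AlgebraicGeometry CategoryTheory.Limits TensorProduct

universe u v

namespace Pool.Agent.N204.GH

open Pool.Agent.H914 Pool.Agent.H447 Pool.Agent.W534 Pool.Agent.Y163 VarClass Obj WeilCohomology
  Module
open Pool.Agent.Y121 Pool.Agent.R940

variable {k : Type u} [Field k] {𝒱 : VarClass k} {ops : CycleOps 𝒱}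
  {W : WeilCohomology.{u, v} ops} {X Y Y' Y₁ Y₂ Z : 𝒱.Obj}

/-- The coniveau filtration. -/
noncomputable def cv (W : WeilCohomology.{u, v} ops) (j : ℕ) (Y : 𝒱.Obj) :
    Submodule W.K (W.H Y) :=
  Submodule.span W.K {x | ∃ (Y' : 𝒱.Obj) (f : Y' ⟶ Y) (y : W.H Y'), Y'.dim + j ≤ Y.dim ∧
    x = W.push f y}

lemma push_mem_cv {j : ℕ} (f : Y' ⟶ Y) (h : Y'.dim + j ≤ Y.dim) (y : W.H Y') :
    W.push f y ∈ cv W j Y :=
  Submodule.subset_span ⟨Y', f, y, h, rfl⟩

lemma cv_anti {j j' : ℕ} (h : j ≤ j') : cv W j' Y ≤ cv W j Y := by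
  rw [cv, Submodule.span_le]
  rintro _ ⟨Y', f, y, h1, rfl⟩
  exact push_mem_cv f (by omega) y

/-- Induction over homogeneous generators. -/
lemma cv_ind {j : ℕ} {P : W.H Y → Prop} (h0 : P 0) (hadd : ∀ x y, P x → P y → P (x + y))
    (hs : ∀ (c : W.K) x, P x → P (c • x))
    (h : ∀ (Y' : 𝒱.Obj) (f : Y' ⟶ Y) (i : ℕ) (y : W.H Y'), Y'.dim + j ≤ Y.dim → y ∈ W.gr Y' i →
      P (W.push f y)) {x : W.H Y} (hx : x ∈ cv W j Y) : P x := by
  induction hx using Submodule.span_induction with
  | mem x hx =>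
    obtain ⟨Y', f, y, h1, rfl⟩ := hx
    refine gr_induction (W.isInternal Y') (p := fun y => P (W.push f y)) ?_ ?_ y
    · intro i y hy; exact h Y' f i y h1 hy
    · intro a b ha hb; rw [map_add]; exact hadd _ _ ha hb
  | zero => exact h0
  | add x y _ _ hx hy => exact hadd _ _ hx hy
  | smul c x _ hx => exact hs c x hx

/-- The push-forward of the coniveau filtration. -/
lemma push_cv {j j' : ℕ} (f : Y' ⟶ Y) (h : Y'.dim + j' ≤ Y.dim + j) {x : W.H Y'}
    (hx : x ∈ cv W j Y') : W.push f x ∈ cv W j' Y := by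
  refine cv_ind (P := fun x => W.push f x ∈ cv W j' Y) ?_ ?_ ?_ ?_ hx
  · rw [map_zero]; exact Submodule.zero_mem _
  · intro x y hx hy; rw [map_add]; exact Submodule.add_mem _ hx hy
  · intro c x hx; rw [map_smul]; exact Submodule.smul_mem _ _ hx
  · intro Y'' g i y h1 hy
    rw [← W.push_comp]
    exact push_mem_cv _ (by omega) y

/-- The pull-back under an isomorphism is a multiple of the push-forward under the inverse. -/
lemma map_iso (f : Y' ⟶ Y) (g : Y ⟶ Y') (hfg : f ≫ g = 𝟙 Y') (hd : Y'.dim = Y.dim) :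
    ∃ δ : W.K, ∀ x : W.H Y, W.map f x = δ • W.push g x := by
  have h0 : W.push f 1 ∈ W.gr Y 0 := by
    have h1 := W.push_mem f (W.one_mem Y')
    rw [hd, sub_self, mul_zero, add_zero, grZ_natCast] at h1
    exact h1
  rw [W.gr_zero] at h0
  obtain ⟨δ, hδ⟩ := Submodule.mem_span_singleton.1 h0
  refine ⟨δ, fun x => ?_⟩
  apply W.tr_ext
  intro c
  have h1 : W.map f x * c = W.map f (x * W.map g c) := by
    rw [map_mul, ← W.map_comp, hfg, W.map_id]
  have h2 := W.tr_push f 1 (x * W.map g c)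
  rw [h1, smul_mul_assoc, map_smul, W.tr_push]
  rw [one_mul] at h2
  rw [← h2, ← hδ, smul_mul_assoc, one_mul, map_smul]

/-- Pull-backs under isomorphisms. -/
lemma map_iso_cv {j : ℕ} (f : Y' ⟶ Y) (g : Y ⟶ Y') (hfg : f ≫ g = 𝟙 Y') (hd : Y'.dim = Y.dim)
    {x : W.H Y} (hx : x ∈ cv W j Y) : W.map f x ∈ cv W j Y' := by
  obtain ⟨δ, hδ⟩ := map_iso (W := W) f g hfg hd
  rw [hδ]
  exact Submodule.smul_mem _ _ (push_cv g (by omega) hx)

/-- Base change for the first projection. -/
lemma map_fst_push (f : Y' ⟶ Y) (y : W.H Y') :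
    W.map (fst Y Z) (W.push f y) =
      W.push (Obj.lift (fst Y' Z ≫ f) (snd Y' Z)) (W.map (fst Y' Z) y) := by
  apply W.tr_ext
  intro c
  refine W.kunneth_induction (p := fun c => W.tr _ (W.map (fst Y Z) (W.push f y) * c) =
    W.tr _ (W.push (Obj.lift (fst Y' Z ≫ f) (snd Y' Z)) (W.map (fst Y' Z) y) * c)) ?_ ?_ c
  · intro a b ha hb
    rw [mul_add, mul_add, map_add, map_add, ha, hb]
  · intro i l a _ b _
    rw [W.tr_push, ← mul_assoc, ← map_mul, W.tr_prod, W.tr_push, map_mul (W.map _),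
      ← W.map_comp, ← W.map_comp, Obj.lift_fst, Obj.lift_snd, W.map_comp, ← mul_assoc, ← map_mul,
      W.tr_prod]

/-- Exterior products. -/
lemma ext_cv {j j' : ℕ} {x : W.H Y} {y : W.H Z} (hx : x ∈ cv W j Y) (hy : y ∈ cv W j' Z) :
    W.map (fst Y Z) x * W.map (snd Y Z) y ∈ cv W (j + j') (Y.prod Z) := by
  -- the case of a class of coniveau zero on the first factor
  have key : ∀ {Y Z : 𝒱.Obj} {j : ℕ} {x : W.H Y} (y : W.H Z), x ∈ cv W j Y →
      W.map (fst Y Z) x * W.map (snd Y Z) y ∈ cv W j (Y.prod Z) := by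
    intro Y Z j x y hx
    refine cv_ind (P := fun x => W.map (fst Y Z) x * W.map (snd Y Z) y ∈ cv W j (Y.prod Z))
      ?_ ?_ ?_ ?_ hx
    · rw [map_zero, zero_mul]; exact Submodule.zero_mem _
    · intro a b ha hb; rw [map_add, add_mul]; exact Submodule.add_mem _ ha hb
    · intro c a ha; rw [map_smul, smul_mul_assoc]; exact Submodule.smul_mem _ _ ha
    · intro Y' f i a h1 ha
      rw [map_fst_push, ← W.push_mul]
      exact push_mem_cv _ (by simp only [dim_prod]; omega) _
  refine cv_ind (P := fun x => W.map (fst Y Z) x * W.map (snd Y Z) y ∈ cv W (j + j') (Y.prod Z))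
    ?_ ?_ ?_ ?_ hx
  · rw [map_zero, zero_mul]; exact Submodule.zero_mem _
  · intro a b ha hb; rw [map_add, add_mul]; exact Submodule.add_mem _ ha hb
  · intro c a ha; rw [map_smul, smul_mul_assoc]; exact Submodule.smul_mem _ _ ha
  · intro Y' f i a h1 ha
    rw [map_fst_push, ← W.push_mul, ← W.map_comp, Obj.lift_snd]
    have h2 : W.map (fst Y' Z) a * W.map (snd Y' Z) y ∈ cv W j' (Y'.prod Z) := by
      -- exchange the factors
      have h3 : ∀ {y : W.H Z}, y ∈ cv W j' Z → W.map (fst Y' Z) a * W.map (snd Y' Z) y ∈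
          cv W j' (Y'.prod Z) := by
        intro y hy
        refine cv_ind (P := fun y => W.map (fst Y' Z) a * W.map (snd Y' Z) y ∈
          cv W j' (Y'.prod Z)) ?_ ?_ ?_ ?_ hy
        · rw [map_zero, mul_zero]; exact Submodule.zero_mem _
        · intro b c hb hc; rw [map_add, mul_add]; exact Submodule.add_mem _ hb hc
        · intro b c hc; rw [map_smul, mul_smul_comm]; exact Submodule.smul_mem _ _ hc
        · intro Z' g l b h4 hb
          have h5 := key (Y := Z) (Z := Y') a (push_mem_cv (W := W) g h4 b)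
          have h6 := map_iso_cv (W := W) (Obj.lift (snd Y' Z) (fst Y' Z))
            (Obj.lift (snd Z Y') (fst Z Y')) (by
              apply prod_hom_ext
              · rw [Category.assoc, Obj.lift_fst, Obj.lift_snd, Category.id_comp]
              · rw [Category.assoc, Obj.lift_snd, Obj.lift_fst, Category.id_comp])
            (by simp only [dim_prod]; omega) h5
          rw [map_mul, ← W.map_comp, ← W.map_comp, Obj.lift_fst, Obj.lift_snd] at h6
          by_cases h7 : (0 : ℤ) ≤ l + 2 * ((Z.dim : ℤ) - Z'.dim)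
          · obtain ⟨l', hl'⟩ := Int.eq_ofNat_of_zero_le h7
            have h8 := W.push_mem g hb
            rw [hl', grZ_natCast] at h8
            rw [W.comm (W.map_mem _ ha) (W.map_mem _ h8)]
            exact Submodule.smul_mem _ _ h6
          · have h8 := W.push_mem g hb
            rw [grZ_of_neg (not_le.1 h7), Submodule.mem_bot] at h8
            rw [h8, map_zero, mul_zero]
            exact Submodule.zero_mem _
      exact h3 hy
    exact push_cv _ (by simp only [dim_prod]; omega) h2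

end Pool.Agent.N204.GH
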