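import Mathlib

/-!
# Subspaces of graded and bigraded vector spaces: definitions
-/

namespace Pool.Agent.N204.GH

section Linear

variable {K A B : Type} [Field K] [Ring A] [Algebra K A] [Ring B] [Algebra K B]

/-- The value of a linear map. -/
def app (f : A →ₗ[K] B) (x : A) : B := f x

/-- The value of a homomorphism of algebras. -/
def appA (f : A →ₐ[K] B) (x : A) : B := f x

/-- The product of the values of two homomorphisms of algebras. -/
def mulApp {C : Type} [Ring C] [Algebra K C] (f : A →ₐ[K] C) (g : B →ₐ[K] C) (x : A) (y : B) : C :=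
  f x * g y

/-- The element `x` lies in the subspace `V`. -/
def Mem (V : Submodule K A) (x : A) : Prop := x ∈ V

/-- The subspace `V` is contained in the subspace `V'`. -/
def Within (V V' : Submodule K A) : Prop := V ≤ V'

variable (K) in
/-- The subspace spanned by the elements with the property `P`. -/
def spanOf (P : A → Prop) : Submodule K A := Submodule.span K {x | P x}

/-- The characteristic polynomial of the endomorphism is squarefree. -/
def HasSqfreeCharpoly [Module.Finite K A] (f : A →ₗ[K] A) : Prop :=
  Squarefree (LinearMap.charpoly (R := K) (M := A) f)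

/-- The endomorphism maps the subspace to itself. -/
def Preserves (f : A →ₗ[K] A) (V : Submodule K A) : Prop := ∀ x ∈ V, f x ∈ V

end Linear

section Bigraded

variable {E : Type} [AddCommGroup E] [Module ℂ E]

/-- The subspace `U` is the sum of its intersections with the `F p q`. -/
def IsGraded (F : ℤ → ℤ → Submodule ℂ E) (U : Submodule ℂ E) : Prop :=
  U = ⨆ r : ℤ × ℤ, U ⊓ F r.1 r.2

/-- If the intersection of `U` and `F p q` is not zero then `|p - q| ≤ l`. -/
def LevelAtMost (F : ℤ → ℤ → Submodule ℂ E) (l : ℤ) (U : Submodule ℂ E) : Prop :=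
  ∀ p q : ℤ, U ⊓ F p q ≠ ⊥ → |p - q| ≤ l

/-- The `F p q` with `p < 0` or `q < 0` are zero. -/
def IsNonneg (F : ℤ → ℤ → Submodule ℂ E) : Prop := ∀ p q : ℤ, p < 0 ∨ q < 0 → F p q = ⊥

/-- The map `g` maps each `F p q` to itself. -/
def RespectsTypes (F : ℤ → ℤ → Submodule ℂ E) (g : E → E) : Prop :=
  ∀ (p q : ℤ) (x : E), x ∈ F p q → g x ∈ F p q

end Bigraded

/-- The number `b (b + 3) (b + 1)! (2 b) ^ b (2 e + 1)`. -/
def ghcBound (b e : ℕ) : ℕ := b * ((b + 3) * ((b + 1).factorial * ((2 * b) ^ b * (2 * e + 1))))

end Pool.Agent.N204.GH
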