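import Pool.Agent.Y121.AHS.Defs
import Pool.Agent.Y163.Defs
import Pool.Agent.N204.GH.Lin

/-!
# Sub-Hodge structures, the coniveau filtration and the generalized Hodge conjecture

A Hodge theory `T` (`Pool.Agent.Y121.AHS.HodgeTheory`) is a Weil cohomology theory with rational
coefficients and a Hodge decomposition of its cohomology with complex coefficients; in the intended use
it is the cohomology of the smooth projective complex varieties.
-/

open CategoryTheory AlgebraicGeometry

universe u

namespace Pool.Agent.N204.GH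

open Pool.Agent.H914 Pool.Agent.H914.VarClass Pool.Agent.H914.VarClass.Obj
  Pool.Agent.H914.WeilCohomology Pool.Agent.Y121.AHS
open Pool.Agent.Y163 (pw)

variable {k : Type u} [Field k] {𝒱 : VarClass k} {ops : CycleOps 𝒱}

/-- The spaces `H^(p,q)(X)` with `p < 0` or `q < 0` vanish, for all `X`. -/
def NonnegTypes (T : HodgeTheory ops) : Prop := ∀ X : 𝒱.Obj, IsNonneg (T.pq X)

/-- The Hodge structure `H(X)`, the sum of the `H^i(X)`, is of CM type: it has an endomorphism (a
rational endomorphism which preserves the `H^i(X)` and the spaces `H^(p,q)(X)`) with a squarefree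
characteristic polynomial. Equivalently, the algebra of the endomorphisms of the rational Hodge
structure contains a commutative semisimple algebra of dimension `dim H(X)`, or the Mumford-Tate
group is commutative. -/
def IsCM (T : HodgeTheory ops) (X : 𝒱.Obj) : Prop :=
  ∃ f : T.W.H X →ₗ[T.W.K] T.W.H X, HasSqfreeCharpoly f ∧ (∀ i, Preserves f (T.W.gr X i)) ∧
    RespectsTypes (T.pq X) (extMap T.W.K ℂ f)

/-- The subspaces of the rational cohomology `H(Y)`, the sum of the `H^i(Y)`. -/
abbrev Subspace (T : HodgeTheory ops) (Y : 𝒱.Obj) := Submodule T.W.K (T.W.H Y)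

/-- The complexification `V_ℂ` of the subspace `V`. -/
noncomputable def cplx (T : HodgeTheory ops) {Y : 𝒱.Obj} (V : Subspace T Y) :
    Submodule ℂ (HL T.W ℂ Y) :=
  extSub T.W.K ℂ V

/-- `V` is a sub-Hodge structure of `H^i(Y)` of level at most `i - 2 c`: it is contained in `H^i(Y)`,
`V_ℂ` is the sum of its intersections `V^(p,q)` with the `H^(p,q)(Y)`, and `|p - q| ≤ i - 2 c` if
`V^(p,q)` is not zero. -/
def IsSubHodge (T : HodgeTheory ops) {Y : 𝒱.Obj} (i c : ℕ) (V : Subspace T Y) : Prop :=
  Within V (T.W.gr Y i) ∧ IsGraded (T.pq Y) (cplx T V) ∧ LevelAtMost (T.pq Y) (i - 2 * c) (cplx T V)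

/-- The class `x` on `Y` is the image under a Gysin homomorphism of a class on a variety of dimension
at most `dim Y - j`. -/
def IsGysin (T : HodgeTheory ops) (j : ℕ) {Y : 𝒱.Obj} (x : T.W.H Y) : Prop :=
  ∃ (Y' : 𝒱.Obj) (f : Y' ⟶ Y) (y : T.W.H Y'), Y'.dim + j ≤ Y.dim ∧ x = app (T.W.push f) y

/-- The coniveau filtration `N^j H(Y)`: the subspace spanned by the images of the Gysin homomorphisms
of all morphisms to `Y` of varieties of dimension at most `dim Y - j`. (For smooth projective complex
varieties `N^j H^i(Y)` is the union of the kernels of the restriction maps to the complements of the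
closed subsets of codimension at least `j`, by resolution of singularities and the strictness of
the weights.) -/
def coniveau (T : HodgeTheory ops) (j : ℕ) (Y : 𝒱.Obj) : Subspace T Y := spanOf T.W.K (IsGysin T j)

/-- The generalized Hodge conjecture for `Y`: for all `i` and `j`, all sub-Hodge structures of
`H^i(Y)` of level at most `i - 2 j` are contained in `N^j H(Y)`. -/
def GHC (T : HodgeTheory ops) (Y : 𝒱.Obj) : Prop :=
  ∀ (i j : ℕ) (V : Subspace T Y), IsSubHodge T i j V → Within V (coniveau T j Y)

/-- The projection of `X ^ (n + 1)` to the factor with the number `i`. -/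
noncomputable def coord (X : 𝒱.Obj) : ∀ n, Fin (n + 1) → (pw X n ⟶ X)
  | 0, _ => 𝟙 X
  | n + 1, i => Fin.cases (fst X (pw X n)) (fun j => snd X (pw X n) ≫ coord X n j) i

/-- The morphism `f` is the projection to the product of the factors `e 0, ..., e a`. -/
def IsProjection {X : 𝒱.Obj} {n a : ℕ} (e : Fin (a + 1) → Fin (n + 1)) (f : pw X n ⟶ pw X a) :
    Prop :=
  ∀ i, f ≫ coord X a i = coord X n (e i)

/-- The class lies in a sub-Hodge structure of `H^i(Y)` of level at most `i - 2 c`. -/
def InSubHodge (T : HodgeTheory ops) {Y : 𝒱.Obj} (i c : ℕ) (x : T.W.H Y) : Prop :=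
  ∃ V : Subspace T Y, IsSubHodge T i c V ∧ Mem V x

/-- Let `f` and `g` be morphisms from `X ^ (n + 1)` to `X ^ (a + 1)` and `X ^ (b + 1)`. The class `x` on
`Z × X ^ (n + 1)` is the product of the pull-backs under `id × f` and `g` of classes `v` and `w` which lie
in sub-Hodge structures of `H^i'(Z × X ^ (a + 1))` and `H^i''(X ^ (b + 1))` of levels at most
`i' - 2 c'` and `i'' - 2 c''`, where `i' + i'' = i` and `c' + c'' = c`. -/
def IsProductOf (T : HodgeTheory ops) (Z : 𝒱.Obj) {X : 𝒱.Obj} {n a b : ℕ} (f : pw X n ⟶ pw X a)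
    (g : pw X n ⟶ pw X b) (i c : ℕ) (x : T.W.H (Z.prod (pw X n))) : Prop :=
  ∃ (i' i'' c' c'' : ℕ) (v : T.W.H (Z.prod (pw X a))) (w : T.W.H (pw X b)),
    i' + i'' = i ∧ c' + c'' = c ∧ InSubHodge T i' c' v ∧ InSubHodge T i'' c'' w ∧
    x = mulApp (T.W.map (Obj.lift (fst Z (pw X n)) (snd Z (pw X n) ≫ f)))
      (T.W.map (snd Z (pw X n) ≫ g)) v w

/-- The class `x` on `Z × X ^ (n + 1)` is an exterior product as in `IsProductOf`, for the projections
belonging to a partition of the set of the `n + 1` factors `X` into the nonempty sets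
`{e 0, ..., e a}` and `{e' 0, ..., e' b}`. -/
def IsExteriorProduct (T : HodgeTheory ops) (Z X : 𝒱.Obj) (n i c : ℕ)
    (x : T.W.H (Z.prod (pw X n))) : Prop :=
  ∃ (a b : ℕ) (e : Fin (a + 1) → Fin (n + 1)) (e' : Fin (b + 1) → Fin (n + 1))
    (f : pw X n ⟶ pw X a) (g : pw X n ⟶ pw X b), Function.Bijective (Sum.elim e e') ∧
    IsProjection e f ∧ IsProjection e' g ∧ IsProductOf T Z f g i c x

/-- There are no new sub-Hodge structures on `Z × X ^ (n + 1)`: every sub-Hodge structure of
`H^i(Z × X ^ (n + 1))` of level at most `i - 2 c` is contained in the span of the exterior products of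
classes in sub-Hodge structures of `H^i'(Z × X ^ (a + 1))` and `H^i''(X ^ (b + 1))` of levels at most
`i' - 2 c'` and `i'' - 2 c''`, `i' + i'' = i`, `c' + c'' = c`, `a + b + 2 = n + 1`. -/
def NoNewSubHodge (T : HodgeTheory ops) (Z X : 𝒱.Obj) (n : ℕ) : Prop :=
  ∀ (i c : ℕ) (V : Subspace T (Z.prod (pw X n))), IsSubHodge T i c V →
    Within V (spanOf T.W.K (IsExteriorProduct T Z X n i c))

/-- The number `N = N(b, e)`, where `b` is the total Betti number of `X` and `e` is the dimension
of `Z`. -/
noncomputable def maxPower (T : HodgeTheory ops) (Z X : 𝒱.Obj) : ℕ :=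
  ghcBound (Module.finrank T.W.K (T.W.H X)) Z.dim

/-- `Y` is dominated by `Y'`: there are a morphism `f` from `Y'` to `Y` and a Hodge class `c` on `Y'`
whose image under the Gysin homomorphism of `f` is `1`. (For a surjective morphism of smooth
projective varieties a multiple of a power of the class of an ample divisor has this property.) -/
def IsDominated (T : HodgeTheory ops) (Y' Y : 𝒱.Obj) : Prop :=
  ∃ (f : Y' ⟶ Y) (j : ℕ) (c : T.W.H Y'), IsHodge T Y' j c ∧ app (T.W.push f) c = 1

end Pool.Agent.N204.GH
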