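import Pool.Agent.N204.GH.Main
import Pool.Agent.N204.GH.Defs

/-!
# Bounded generation for the generalized Hodge conjecture: the theorems
-/

set_option linter.unusedVariables false
set_option linter.unusedSectionVars false

open CategoryTheory AlgebraicGeometry CategoryTheory.Limits TensorProduct

universe u v

namespace Pool.Agent.N204.GH

open Pool.Agent.H914 Pool.Agent.H447 Pool.Agent.W534 Pool.Agent.Y163 VarClass Obj WeilCohomology
  Module
open Pool.Agent.Y121 Pool.Agent.R940

variable {k : Type u} [Field k] {𝒱 : VarClass k} {ops : CycleOps 𝒱}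

section AHlevel

variable {T : AH.HodgeTheory ops} {X Y Y' Z : 𝒱.Obj}

/-- The comparison of the definitions of sub-Hodge structures. -/
lemma graded_iff (hpos : ∀ (Y : 𝒱.Obj) (p q : ℤ), p < 0 ∨ q < 0 → T.pq Y p q = ⊥) {i c : ℕ}
    {V : Submodule T.W.K (T.W.H Y)} :
    (V ≤ T.W.gr Y i ∧ (SG ℂ V = ⨆ r : ℤ × ℤ, SG ℂ V ⊓ T.pq Y r.1 r.2) ∧
      (∀ p q : ℤ, SG ℂ V ⊓ T.pq Y p q ≠ ⊥ → |p - q| ≤ (i : ℤ) - 2 * c)) ↔
    Graded T Y (SG ℂ V) (Tps i c) := by
  constructor
  · rintro ⟨h1, h2, h3⟩
    have h4 : Graded T Y (SG ℂ V) Set.univ := by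
      rw [Graded]
      conv_lhs => rw [h2]
      exact iSup_le fun r => le_iSup (fun r : (Set.univ : Set (ℤ × ℤ)) =>
        SG ℂ V ⊓ T.pq Y r.1.1 r.1.2) ⟨r, trivial⟩
    refine h4.restrict.mono ?_
    rintro r ⟨-, hr⟩
    obtain ⟨x, hx, hx0⟩ := Submodule.exists_mem_ne_zero_of_ne_bot hr
    obtain ⟨g1, g2, g3, g4⟩ := type_bound hpos hx.2 hx0
    have g5 : x ∈ (baseW T.W ℂ).gr Y i := by
      refine SG_ind (P := fun x => x ∈ (baseW T.W ℂ).gr Y i)
        (Submodule.zero_mem _) (fun _ _ => Submodule.add_mem _)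
        (fun c _ => Submodule.smul_mem _ c) ?_ hx.1
      intro a ha
      exact Submodule.tmul_mem_baseChange_of_mem (1 : ℂ) (h1 ha)
    have g6 : (r.1 + r.2).toNat = i := by
      by_contra hne
      have h7 := ((baseW T.W ℂ).isInternal Y).submodule_iSupIndep.pairwiseDisjoint hne
      exact hx0 ((Submodule.disjoint_def.1 h7) _ g3 g5)
    have g7 : r.1 + r.2 = i := by omega
    have g8 := h3 r.1 r.2 hr
    rw [abs_le] at g8
    exact ⟨g7, by omega, by omega⟩
  · intro h
    refine ⟨?_, ?_, ?_⟩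
    · intro x hx
      have h1 := h (em_SG hx)
      have h2 : (⨆ r : Tps i c, (SG ℂ V : CSub T Y) ⊓ T.pq Y r.1.1 r.1.2) ≤
          (baseW T.W ℂ).gr Y i := by
        refine iSup_le fun r => inf_le_right.trans ?_
        exact T.dec.le Y r.2.1
      exact mem_of_baseChange (K := T.W.K) (L := ℂ) (G := T.W.gr Y i) (h2 h1)
    · apply le_antisymm
      · exact le_trans h (iSup_le fun r => le_iSup (fun r : ℤ × ℤ =>
          (SG ℂ V : CSub T Y) ⊓ T.pq Y r.1 r.2) r.1)
      · exact iSup_le fun r => inf_le_left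
    · intro p q hpq
      obtain ⟨x, hx, hx0⟩ := Submodule.exists_mem_ne_zero_of_ne_bot hpq
      have h1 : (p, q) ∈ Tps i c := by
        by_contra hcon
        have h4 : x ∈ ⨆ (r : ℤ × ℤ) (_ : r ≠ (p, q)), T.pq Y r.1 r.2 := by
          refine (iSup_le ?_ : (⨆ r : Tps i c, (SG ℂ V : CSub T Y) ⊓ T.pq Y r.1.1 r.1.2) ≤ _)
            (h hx.1)
          intro r
          refine inf_le_right.trans ?_
          exact le_iSup₂ (f := fun (r : ℤ × ℤ) (_ : r ≠ (p, q)) => T.pq Y r.1 r.2)
            r.1 (fun h5 => hcon (h5 ▸ r.2))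
        have h5 := T.dec.indep Y (p, q)
        exact hx0 ((Submodule.disjoint_def.1 h5) _ hx.2 h4)
      obtain ⟨g1, g2, g3⟩ := h1
      simp only at g1 g2 g3
      rw [abs_le]
      constructor <;> omega

lemma coord_eq' (X : 𝒱.Obj) : ∀ (n : ℕ) (i : Fin (n + 1)), coord X n i = pr X n i
  | 0, i => rfl
  | n + 1, i => by
    refine Fin.cases ?_ (fun j => ?_) i
    · rfl
    · exact congrArg (fun f => snd X (pw X n) ≫ f) (coord_eq' X n j)

lemma isProjection_iff {X : 𝒱.Obj} {n a : ℕ} {e : Fin (a + 1) → Fin (n + 1)} {f : pw X n ⟶ pw X a} :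
    IsProjection e f ↔ f = proj X e := by
  constructor
  · intro h
    apply pw_hom_ext
    intro i
    have h1 := h i
    rw [coord_eq', coord_eq'] at h1
    rw [h1, proj_eq, tup_pr]
  · rintro rfl i
    rw [coord_eq', coord_eq', proj_eq, tup_pr]

end AHlevel

open Pool.Agent.Y121.AHS

variable {T : HodgeTheory ops} {X Y Y' Z : 𝒱.Obj}

lemma sub_iff (hpos : NonnegTypes T) {i c : ℕ} {V : Subspace T Y} :
    IsSubHodge T i c V ↔ Graded (toH T) Y (SG (T := toH T) ℂ V) (Tps i c) :=
  graded_iff (T := toH T) hpos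

lemma ghc_iff (hpos : NonnegTypes T) : GHC T Y ↔ GH (toH T) Y := by
  constructor
  · intro h i j V hV
    have h1 := (sub_iff (T := T) hpos).2 hV
    exact h i j V h1
  · intro h i j V h1
    exact h i j V ((sub_iff (T := T) hpos).1 h1)

lemma ext_of (hpos : NonnegTypes T) {n i c : ℕ} {x : T.W.H (Z.prod (pw X n))}
    (h : IsExt (toH T) Z X n i c x) : IsExteriorProduct T Z X n i c x := by
  obtain ⟨a, b, e, e', i', i'', c', c'', V', V'', v, w, h1, h2, h3, h4, h5, h6, h7, h8⟩ := h
  refine ⟨a, b, e, e', proj X e, proj X e', bij_of_perm h1, isProjection_iff.2 rfl,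
    isProjection_iff.2 rfl, i', i'', c', c'', v, w, h2, h3,
    ⟨V', (sub_iff (T := T) hpos).2 h4, h6⟩, ⟨V'', (sub_iff (T := T) hpos).2 h5, h7⟩, ?_⟩
  rw [h8]
  change T.W.map (projZ Z X e) v * T.W.map (snd Z (pw X n)) (T.W.map (proj X e') w) =
    T.W.map (projZ Z X e) v * T.W.map (snd Z (pw X n) ≫ proj X e') w
  rw [T.W.map_comp (snd Z (pw X n)) (proj X e')]

/-- The eigenbasis and the numerical data. -/
lemma exists_data (hX : IsCM T X) [Nontrivial (T.W.H X)] :
    ∃ (L : Type) (_ : Field L) (_ : Algebra (toH T).W.K L) (_ : FiniteDimensional (toH T).W.K L)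
      (_ : IsGalois (toH T).W.K L), Nonempty (CMB (toH T) X L (Fin (finrank T.W.K (T.W.H X)))) := by
  obtain ⟨f, hf, hgr, hpq⟩ := hX
  set P := LinearMap.charpoly f with hP
  have hgal : IsGalois T.W.K P.SplittingField :=
    IsGalois.of_separable_splitting_field (p := P) (PerfectField.separable_iff_squarefree.2 hf)
  have hfin0 : FiniteDimensional T.W.K P.SplittingField := inferInstance
  have hfin : @FiniteDimensional (toH T).W.K P.SplittingField _ _ (instAlgH T P.SplittingField
    (h := inferInstance)).toModule := hfin0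
  have hgal' : @IsGalois (toH T).W.K _ P.SplittingField _ (instAlgH T P.SplittingField
    (h := inferInstance)) := hgal
  exact ⟨P.SplittingField, inferInstance, _, hfin, hgal',
    exists_cmb (T := toH T) (X := X) (L := P.SplittingField) (f := f) hf hgr
    (fun p q x hx => hpq p q x hx) (Polynomial.SplittingField.splits P)⟩

/-- **Splitting.** -/
theorem ghc_split (hpos : NonnegTypes T) (hX : IsCM T X) {n i c : ℕ}
    (hn : ghcBound (finrank T.W.K (T.W.H X)) Z.dim < n + 1)
    {V : Subspace T (Z.prod (pw X n))} (hV : IsSubHodge T i c V) :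
    V ≤ Submodule.span T.W.K {x | IsExteriorProduct T Z X n i c x} := by
  classical
  rcases subsingleton_or_nontrivial (T.W.H X) with hs | hnt
  · have := subsing_prod (Z := Z) hs n
    intro x _
    rw [Subsingleton.elim x 0]
    exact Submodule.zero_mem _
  obtain ⟨L, _, _, _, _, ⟨M⟩⟩ := exists_data hX
  obtain ⟨D, hD, hlef, -⟩ := T.polar X
  have hdim : X.dim + 1 ≤ finrank T.W.K (T.W.H X) := dim_lt_of_hardLef hD hlef
  set b := finrank T.W.K (T.W.H X) with hb
  have h1 := split (T := toH T) M hpos (B := 2 * b) (R := 2 * Z.dim + 1) (n := n) (i := i) (c := c)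
    (by omega) (fun l => (deg_le M.B l).trans (by
      show 2 * X.dim ≤ 2 * b
      omega)) (by omega) (by omega) (by
      rw [Fintype.card_fin]
      exact hn) ((sub_iff (T := T) hpos).1 hV)
  refine h1.trans (Submodule.span_mono ?_)
  intro x hx
  exact ext_of hpos hx

/-- **The reduction of the generalized Hodge conjecture.** -/
theorem ghc_red (hpos : NonnegTypes T) (hX : IsCM T X)
    (hH : GHC T (Z.prod (pw X (ghcBound (finrank T.W.K (T.W.H X)) Z.dim - 1)))) (n : ℕ) :
    GHC T (Z.prod (pw X n)) := by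
  rcases subsingleton_or_nontrivial (T.W.H X) with hs | hnt
  · have := subsing_prod (Z := Z) hs n
    intro i j V _ x _
    rw [Subsingleton.elim x 0]
    exact Submodule.zero_mem _
  rcases subsingleton_or_nontrivial (T.W.H Z) with hs | hntZ
  · have : Subsingleton (T.W.H (Z.prod (pw X n))) := subsing_of_map (fst Z (pw X n)) hs
    intro i j V _ x _
    rw [Subsingleton.elim x 0]
    exact Submodule.zero_mem _
  have hnt' : Nontrivial ((toH T).W.H X) := hnt
  have hntZ' : Nontrivial ((toH T).W.H Z) := hntZ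
  induction n using Nat.strong_induction_on with
  | _ n ih =>
  rcases Nat.lt_or_ge (ghcBound (finrank T.W.K (T.W.H X)) Z.dim) (n + 1) with hlt | hge
  · intro i j V h1
    refine (ghc_split hpos hX hlt h1).trans ?_
    rw [Submodule.span_le]
    rintro _ ⟨a, b, e, e', f, g, g1, g0, g0', i', i'', c', c'', v, w, g2, g3, ⟨V', g4, g6⟩,
      ⟨V'', g5, g7⟩, rfl⟩
    rw [isProjection_iff] at g0 g0'
    subst g0 g0'
    have hab : a + 1 + (b + 1) = n + 1 := by
      have := Fintype.card_congr (Equiv.ofBijective _ g1)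
      rwa [Fintype.card_sum, Fintype.card_fin, Fintype.card_fin, Fintype.card_fin] at this
    have hv : v ∈ coniveau T c' _ := ih a (by omega) i' c' V' g4 g6
    have hXb : GHC T (pw X b) := by
      rw [ghc_iff hpos]
      exact ((ghc_iff hpos).1 (ih b (by omega))).of_dom (dom_snd Z (pw X b))
    have hw : w ∈ coniveau T c'' _ := hXb i'' c'' V'' g5 g7
    rw [← g3]
    have h2 := ext_mem_cv (W := T.W) g1 hv hw
    rw [← T.W.map_comp (snd Z (pw X n)) (proj X e')] at h2
    exact h2
  · rw [ghc_iff hpos] at hH ⊢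
    exact GH.down Z X (by omega) hH

theorem ghc_dom (hpos : NonnegTypes T) (h : IsDominated T Y' Y) (hY : GHC T Y') : GHC T Y := by
  rw [ghc_iff hpos] at hY ⊢
  exact hY.of_dom h

end Pool.Agent.N204.GH
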