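import Pool.Agent.N204.GH.Coniv
import Pool.Agent.R940.HFin

/-!
# The generalized Hodge conjecture on the products with powers of varieties of CM type
-/

set_option linter.unusedVariables false
set_option linter.unusedSectionVars false

open CategoryTheory AlgebraicGeometry CategoryTheory.Limits TensorProduct

universe u v

namespace Pool.Agent.N204.GH

open Pool.Agent.H914 Pool.Agent.H447 Pool.Agent.W534 Pool.Agent.Y163 VarClass Obj WeilCohomology
  Module
open Pool.Agent.Y121 Pool.Agent.R940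

variable {k : Type u} [Field k] {𝒱 : VarClass k} {ops : CycleOps 𝒱}
  {T : AH.HodgeTheory ops} {X Y Y' Z : 𝒱.Obj}

/-- The generalized Hodge conjecture in terms of gradings. -/
def GH (T : AH.HodgeTheory ops) (Y : 𝒱.Obj) : Prop :=
  ∀ (i j : ℕ) (V : Submodule T.W.K (T.W.H Y)), Graded T Y (SG ℂ V) (Tps i j) → V ≤ cv T.W j Y

/-- Domination. -/
def Dom (T : AH.HodgeTheory ops) (Y' Y : 𝒱.Obj) : Prop :=
  ∃ (f : Y' ⟶ Y) (j : ℕ) (c : T.W.H Y'), AH.IsHodge T Y' j c ∧ T.W.push f c = 1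

lemma dim_of_push [Nontrivial (T.W.H Y)] {f : Y' ⟶ Y} {j : ℕ} {c : T.W.H Y'}
    (hc : c ∈ T.W.gr Y' (2 * j)) (h1 : T.W.push f c = 1) : Y'.dim = Y.dim + j := by
  have h2 := T.W.push_mem f hc
  rw [h1] at h2
  by_cases h3 : (0 : ℤ) ≤ ((2 * j : ℕ) : ℤ) + 2 * ((Y.dim : ℤ) - Y'.dim)
  · obtain ⟨l, hl⟩ := Int.eq_ofNat_of_zero_le h3
    rw [hl, grZ_natCast] at h2
    have h4 : l = 0 := by
      by_contra hne
      have h7 := (T.W.isInternal Y).submodule_iSupIndep.pairwiseDisjoint hne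
      exact one_ne_zero ((Submodule.disjoint_def.1 h7) _ h2 (T.W.one_mem Y))
    rw [h4] at hl
    push_cast at hl
    omega
  · rw [grZ_of_neg (not_le.1 h3), Submodule.mem_bot] at h2
    exact absurd h2 one_ne_zero

lemma em_smul' (r : T.W.K) (x : T.W.H Y) : AH.em T.W ℂ (r • x) =
    (show (baseW T.W ℂ).K from algebraMap T.W.K ℂ r) • AH.em T.W ℂ x := by
  have h7 : (1 : ℂ) ⊗ₜ[T.W.K] (r • x) = (algebraMap T.W.K ℂ r) • ((1 : ℂ) ⊗ₜ[T.W.K] x) := by
    rw [TensorProduct.tmul_smul, algebraMap_smul]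
  exact h7

/-- The multiplication with a Hodge class after a pull-back preserves sub-Hodge structures. -/
lemma graded_mul (f : Y' ⟶ Y) {j : ℕ} {c : T.W.H Y'} (hc : AH.IsHodge T Y' j c) {i l : ℕ}
    {V : Submodule T.W.K (T.W.H Y)} (hV : Graded T Y (SG ℂ V) (Tps i l)) :
    Graded T Y' (SG ℂ (V.map (LinearMap.mulLeft T.W.K c ∘ₗ (T.W.map f).toLinearMap)))
      (Tps (i + 2 * j) (l + j)) := by
  let φ : T.W.H Y →ₗ[T.W.K] T.W.H Y' := LinearMap.mulLeft T.W.K c ∘ₗ (T.W.map f).toLinearMap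
  let ψ : (baseW T.W ℂ).H Y →ₗ[(baseW T.W ℂ).K] (baseW T.W ℂ).H Y' :=
    LinearMap.mulLeft _ (AH.em T.W ℂ c) ∘ₗ ((baseW T.W ℂ).map f).toLinearMap
  have h0 : ∀ a, ψ (AH.em T.W ℂ a) = AH.em T.W ℂ (φ a) := by
    intro a
    change AH.em T.W ℂ c * (baseW T.W ℂ).map f (AH.em T.W ℂ a) = AH.em T.W ℂ (c * T.W.map f a)
    rw [em_map]
    exact em_mul _ _
  have h2 : (SG ℂ (V.map φ) : CSub T Y') = (SG ℂ V : CSub T Y).map ψ := by
    apply le_antisymm
    · intro y hy
      refine SG_ind (P := fun y => y ∈ (SG ℂ V : CSub T Y).map ψ)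
        (Submodule.zero_mem _) (fun _ _ => Submodule.add_mem _) (fun c _ => Submodule.smul_mem _ c)
        ?_ hy
      rintro _ ⟨a, ha, rfl⟩
      exact ⟨AH.em T.W ℂ a, em_SG ha, h0 a⟩
    · rintro _ ⟨y, hy, rfl⟩
      refine SG_ind (P := fun y => ψ y ∈ (SG ℂ (V.map φ) : CSub T Y')) ?_ ?_ ?_ ?_ hy
      · rw [map_zero]; exact Submodule.zero_mem _
      · intro a b ha hb; rw [map_add]; exact Submodule.add_mem _ ha hb
      · intro a b hb; rw [map_smul]; exact Submodule.smul_mem _ _ hb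
      · intro a ha
        rw [h0]
        exact em_SG ⟨a, ha, rfl⟩
  change Graded T Y' (SG ℂ (V.map φ)) _
  rw [h2]
  refine (hV.map ψ ((j : ℤ), (j : ℤ)) ?_).mono ?_
  · intro p q y hy
    have h4 := T.dec.mul (show AH.em T.W ℂ c ∈ T.pq Y' j j from hc.2) (T.dec.map f hy)
    rw [add_comm (j : ℤ) p, add_comm (j : ℤ) q] at h4
    exact h4
  · rintro r ⟨g1, g2, g3⟩
    simp only at g1 g2 g3
    refine ⟨?_, ?_, ?_⟩ <;> push_cast <;> linarith

/-- **The generalized Hodge conjecture passes to dominated varieties.** -/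
theorem GH.of_dom (h : Dom T Y' Y) (hY : GH T Y') : GH T Y := by
  rcases subsingleton_or_nontrivial (T.W.H Y) with hs | hn
  · intro i j V _ x _
    rw [Subsingleton.elim x 0]
    exact Submodule.zero_mem _
  obtain ⟨f, j, c, hc, h1⟩ := h
  have hd := dim_of_push hc.1 h1
  intro i l V hV x hx
  have h4 := hY _ _ _ (graded_mul f hc hV) ⟨x, hx, rfl⟩
  have h5 := push_cv (W := T.W) f (show Y'.dim + l ≤ Y.dim + (l + j) by omega) h4
  have h6 : T.W.push f ((LinearMap.mulLeft T.W.K c ∘ₗ (T.W.map f).toLinearMap) x) = x := by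
    change T.W.push f (c * T.W.map f x) = x
    rw [T.W.push_mul, h1, one_mul]
  rwa [h6] at h5

/-- The class of a point. -/
lemma exists_point (X : 𝒱.Obj) [Nontrivial (T.W.H X)] :
    ∃ p : T.W.H X, AH.IsHodge T X X.dim p ∧ T.W.tr X p = 1 := by
  obtain ⟨D, hD, hl, -⟩ := T.dec.polar X
  have hbig : T.W.cl X D ^ X.dim ≠ 0 := by
    intro h
    have h1 := (hl 0 (Nat.zero_le _)).1 1 (T.W.one_mem X)
    rw [Nat.sub_zero, LinearMap.pow_mulLeft, LinearMap.mulLeft_apply, mul_one] at h1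
    exact one_ne_zero (h1 h)
  have hgr : T.W.cl X D ^ X.dim ∈ T.W.gr X (2 * X.dim) := pow_mem_gr hD X.dim
  have htr : T.W.tr X (T.W.cl X D ^ X.dim) ≠ 0 := by
    intro h0
    apply hbig
    apply T.W.nondeg
    intro b
    refine gr_induction (T.W.isInternal X) (p := fun b => T.W.tr X (T.W.cl X D ^ X.dim * b) = 0)
      ?_ ?_ b
    · intro i b hb
      rcases Nat.eq_zero_or_pos i with rfl | hi
      · rw [T.W.gr_zero] at hb
        obtain ⟨t, rfl⟩ := Submodule.mem_span_singleton.1 hb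
        rw [mul_smul_comm, mul_one, map_smul, h0, smul_zero]
      · exact T.W.tr_eq_zero (T.W.mul_mem hgr hb) (by omega)
    · intro a b ha hb; rw [mul_add, map_add, ha, hb, add_zero]
  have hpow : ∀ j : ℕ, AH.em T.W ℂ (T.W.cl X D ^ j) ∈ T.pq X j j := by
    intro j
    induction j with
    | zero =>
      rw [pow_zero, ← T.W.cl_fund]
      exact T.dec.cyc (X := X) (j := 0) (z := X.V.fundCycle) (SmVar.fundCycle_mem _)
    | succ j ih =>
      have h1 := T.dec.mul ih (T.dec.cyc (X := X) (j := 1) (z := D) hD)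
      rw [em_mul, ← pow_succ] at h1
      push_cast
      push_cast at h1
      exact h1
  refine ⟨(T.W.tr X (T.W.cl X D ^ X.dim))⁻¹ • T.W.cl X D ^ X.dim, ⟨?_, ?_⟩, ?_⟩
  · exact Submodule.smul_mem _ _ hgr
  · rw [em_smul']
    exact Submodule.smul_mem _ _ (hpow X.dim)
  · rw [map_smul, smul_eq_mul, inv_mul_cancel₀ htr]

lemma isHodge_pull (f : Y' ⟶ Y) {j : ℕ} {c : T.W.H Y} (hc : AH.IsHodge T Y j c) :
    AH.IsHodge T Y' j (T.W.map f c) := by
  refine ⟨T.W.map_mem f hc.1, ?_⟩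
  rw [← em_map]
  exact T.dec.map f hc.2

/-- The second factor of a product is dominated by the product. -/
lemma dom_snd (Z Y : 𝒱.Obj) [Nontrivial (T.W.H Z)] : Dom T (Z.prod Y) Y := by
  obtain ⟨p, hp, h1⟩ := exists_point (T := T) Z
  refine ⟨snd Z Y, Z.dim, T.W.map (fst Z Y) p, isHodge_pull _ hp, ?_⟩
  rw [T.W.push_snd', h1, one_smul]

/-- The omission of a factor. -/
lemma dom_mid (Z X U : 𝒱.Obj) [Nontrivial (T.W.H X)] : Dom T (Z.prod (X.prod U)) (Z.prod U) := by
  obtain ⟨p, hp, h1⟩ := exists_point (T := T) X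
  refine ⟨Obj.lift (fst Z (X.prod U)) (snd Z (X.prod U) ≫ snd X U), X.dim,
    T.W.map (snd Z (X.prod U) ≫ fst X U) p, isHodge_pull _ hp, ?_⟩
  apply T.W.tr_ext
  intro c
  rw [T.W.tr_push, one_mul]
  refine T.W.kunneth_induction (p := fun c => T.W.tr _ (T.W.map (snd Z (X.prod U) ≫
    fst X U) p * T.W.map (Obj.lift (fst Z (X.prod U)) (snd Z (X.prod U) ≫
    snd X U)) c) = T.W.tr _ c) ?_ ?_ c
  · intro a b ha hb
    rw [map_add, mul_add, map_add, map_add, ha, hb]
  · intro i l a ha b hb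
    have hpe : T.W.map (fst X U) p ∈ T.W.gr (X.prod U) (2 * X.dim) := T.W.map_mem _ hp.1
    have e1 : T.W.map (snd Z (X.prod U) ≫ fst X U) p *
        T.W.map (Obj.lift (fst Z (X.prod U)) (snd Z (X.prod U) ≫ snd X U))
          (T.W.map (fst Z U) a * T.W.map (snd Z U) b) =
        T.W.map (fst Z (X.prod U)) a * T.W.map (snd Z (X.prod U))
          (T.W.map (fst X U) p * T.W.map (snd X U) b) := by
      rw [map_mul (T.W.map (Obj.lift _ _)), ← T.W.map_comp, ← T.W.map_comp, Obj.lift_fst,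
        Obj.lift_snd, map_mul (T.W.map (snd Z (X.prod U))), T.W.map_comp, T.W.map_comp,
        ← mul_assoc, T.W.even_comm (T.W.map_mem (snd Z (X.prod U)) hpe), mul_assoc]
    rw [e1, T.W.tr_prod, T.W.tr_prod, h1, one_mul, T.W.tr_prod]

/-- A smaller power is dominated by a larger power. -/
lemma dom_succ (Z X : 𝒱.Obj) [Nontrivial (T.W.H X)] (m : ℕ) :
    Dom T (Z.prod (pw X (m + 1))) (Z.prod (pw X m)) :=
  dom_mid Z X (pw X m)

lemma GH.down (Z X : 𝒱.Obj) [Nontrivial (T.W.H X)] {m M : ℕ} (h : m ≤ M)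
    (hM : GH T (Z.prod (pw X M))) : GH T (Z.prod (pw X m)) := by
  induction M, h using Nat.le_induction with
  | base => exact hM
  | succ M _ ih => exact ih (hM.of_dom (dom_succ Z X M))

/-! ### The exterior products -/

lemma bij_of_perm {n a b : ℕ} {e : Fin a → Fin n} {e' : Fin b → Fin n}
    (h : (List.ofFn e ++ List.ofFn e').Perm (List.finRange n)) :
    Function.Bijective (Sum.elim e e') := by
  have hnd : (List.ofFn e ++ List.ofFn e').Nodup := h.nodup_iff.2 (List.nodup_finRange _)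
  have hnd2 := List.nodup_append'.1 hnd
  have hsurj : Function.Surjective (Sum.elim e e') := by
    intro x
    have h1 : x ∈ List.ofFn e ++ List.ofFn e' := h.mem_iff.2 (List.mem_finRange x)
    rcases List.mem_append.1 h1 with h2 | h2
    · obtain ⟨j, hj⟩ := (List.mem_ofFn).1 h2
      exact ⟨Sum.inl j, hj⟩
    · obtain ⟨j, hj⟩ := (List.mem_ofFn).1 h2
      exact ⟨Sum.inr j, hj⟩
  refine ⟨?_, hsurj⟩
  have hlen : a + b = n := by
    have := h.length_eq
    simpa using this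
  exact ((Fintype.bijective_iff_surjective_and_card _).2 ⟨hsurj, by
    rw [Fintype.card_sum, Fintype.card_fin, Fintype.card_fin, Fintype.card_fin, hlen]⟩).1

/-- Exterior products and the coniveau filtration. -/
lemma ext_mem_cv {W : WeilCohomology.{u, v} ops} {n a b : ℕ} {e : Fin (a + 1) → Fin (n + 1)}
    {e' : Fin (b + 1) → Fin (n + 1)} (h : Function.Bijective (Sum.elim e e')) {j j' : ℕ}
    {v : W.H (Z.prod (pw X a))} {w : W.H (pw X b)} (hv : v ∈ cv W j _) (hw : w ∈ cv W j' _) :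
    W.map (projZ Z X e) v * W.map (snd Z (pw X n)) (W.map (proj X e') w) ∈
      cv W (j + j') (Z.prod (pw X n)) := by
  have h1 := ext_cv hv hw
  let g := Equiv.ofBijective _ h
  let θ : Z.prod (pw X n) ⟶ (Z.prod (pw X a)).prod (pw X b) :=
    Obj.lift (projZ Z X e) (snd Z (pw X n) ≫ proj X e')
  let θ' : (Z.prod (pw X a)).prod (pw X b) ⟶ Z.prod (pw X n) :=
    Obj.lift (fst (Z.prod (pw X a)) (pw X b) ≫ fst Z (pw X a)) (tup n (fun i =>
      Sum.elim (fun s => fst (Z.prod (pw X a)) (pw X b) ≫ snd Z (pw X a) ≫ pr X a s)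
        (fun s => snd (Z.prod (pw X a)) (pw X b) ≫ pr X b s) (g.symm i)))
  have hθ : θ ≫ θ' = 𝟙 _ := by
    apply prod_hom_ext
    · rw [Category.assoc, Obj.lift_fst, ← Category.assoc, Obj.lift_fst, projZ, Obj.lift_fst,
        Category.id_comp]
    · apply pw_hom_ext
      intro i
      have e0 : (θ ≫ θ') ≫ snd Z (pw X n) = θ ≫ tup n (fun i =>
          Sum.elim (fun s => fst (Z.prod (pw X a)) (pw X b) ≫ snd Z (pw X a) ≫ pr X a s)
          (fun s => snd (Z.prod (pw X a)) (pw X b) ≫ pr X b s) (g.symm i)) := by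
        rw [Category.assoc, Obj.lift_snd]
      rw [e0, Category.id_comp, Category.assoc, tup_pr]
      obtain ⟨s, hs⟩ := g.surjective i
      have h2 : g.symm i = s := by rw [← hs, g.symm_apply_apply]
      rw [h2]
      have h3 : Sum.elim e e' s = i := hs
      rcases s with s | s
      · rw [Sum.elim_inl, ← Category.assoc θ, Obj.lift_fst, ← Category.assoc (projZ Z X e), projZ,
          Obj.lift_snd, proj_eq, Category.assoc, tup_pr]
        rw [Sum.elim_inl] at h3
        rw [h3]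
      · rw [Sum.elim_inr, ← Category.assoc θ, Obj.lift_snd, proj_eq, Category.assoc, tup_pr]
        rw [Sum.elim_inr] at h3
        rw [h3]
  have hlen : a + 1 + (b + 1) = n + 1 := by
    have := Fintype.card_congr g
    rwa [Fintype.card_sum, Fintype.card_fin, Fintype.card_fin, Fintype.card_fin] at this
  have hd : (Z.prod (pw X n)).dim = ((Z.prod (pw X a)).prod (pw X b)).dim := by
    simp only [dim_prod]
    have e1 : (pw X n).dim = (n + 1) * X.dim := dim_pw X n
    have e2 : (pw X a).dim = (a + 1) * X.dim := dim_pw X a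
    have e3 : (pw X b).dim = (b + 1) * X.dim := dim_pw X b
    rw [e1, e2, e3, ← hlen]
    ring
  have h2 := map_iso_cv θ θ' hθ hd h1
  rw [map_mul, ← W.map_comp, ← W.map_comp, Obj.lift_fst, Obj.lift_snd,
    W.map_comp (snd Z (pw X n)) (proj X e')] at h2
  exact h2

end Pool.Agent.N204.GH
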