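import Pool.Agent.N204.GH.Sub
import Pool.Agent.N204.Ray.Split

/-!
# The sub-Hodge structures on the products with large powers are generated by exterior products
-/

set_option linter.unusedVariables false
set_option linter.unusedSectionVars false

open CategoryTheory AlgebraicGeometry CategoryTheory.Limits TensorProduct

universe u v

namespace Pool.Agent.N204.GH

open Pool.Agent.H914 Pool.Agent.H447 Pool.Agent.W534 Pool.Agent.Y163 VarClass Obj WeilCohomology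
  Module
open Pool.Agent.Y121 Pool.Agent.R940
open Pool.Agent.N204.Ray (lenBound cone_split)

variable {k : Type u} [Field k] {𝒱 : VarClass k} {ops : CycleOps 𝒱}

variable {T : AH.HodgeTheory ops} {X Y Y' Z : 𝒱.Obj} {L : Type} [Field L] [Algebra T.W.K L]
  {ι : Type} [Fintype ι] [DecidableEq ι]

/-- The types of the Hodge structures of weight `i` and coniveau at least `c`. -/
def Tps (i c : ℕ) : Set (ℤ × ℤ) := {r | r.1 + r.2 = i ∧ (c : ℤ) ≤ r.1 ∧ (c : ℤ) ≤ r.2}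

/-- The exterior products of classes in sub-Hodge structures on `Z × X ^ (a + 1)` and
`X ^ (b + 1)`, `a + b + 2 = n + 1`, of coniveaus at least `c'` and `c''`, `c' + c'' = c`. -/
def IsExt (T : AH.HodgeTheory ops) (Z X : 𝒱.Obj) (n i c : ℕ) (x : T.W.H (Z.prod (pw X n))) : Prop :=
  ∃ (a b : ℕ) (e : Fin (a + 1) → Fin (n + 1)) (e' : Fin (b + 1) → Fin (n + 1))
    (i' i'' c' c'' : ℕ) (V' : Submodule T.W.K (T.W.H (Z.prod (pw X a))))
    (V'' : Submodule T.W.K (T.W.H (pw X b))) (v : T.W.H (Z.prod (pw X a))) (w : T.W.H (pw X b)),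
    (List.ofFn e ++ List.ofFn e').Perm (List.finRange (n + 1)) ∧ i' + i'' = i ∧ c' + c'' = c ∧
    Graded T _ (SG ℂ V') (Tps i' c') ∧ Graded T _ (SG ℂ V'') (Tps i'' c'') ∧ v ∈ V' ∧ w ∈ V'' ∧
    x = T.W.map (projZ Z X e) v * T.W.map (snd Z (pw X n)) (T.W.map (proj X e') w)

variable (M : CMB T X L ι)
variable (hpos : ∀ (Y : 𝒱.Obj) (p q : ℤ), p < 0 ∨ q < 0 → T.pq Y p q = ⊥)

/-- Products of extensions. -/
lemma SG_mul2 {G' : Submodule T.W.K (T.W.H Y)} {G'' : Submodule T.W.K (T.W.H Y')}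
    {G : Submodule T.W.K (T.W.H Z)} (f : Z ⟶ Y) (g : Z ⟶ Y')
    (h : ∀ a ∈ G', ∀ b ∈ G'', T.W.map f a * T.W.map g b ∈ G)
    {x : (baseW T.W L).H Y} {y : (baseW T.W L).H Y'} (hx : x ∈ SG L G') (hy : y ∈ SG L G'') :
    (baseW T.W L).map f x * (baseW T.W L).map g y ∈ SG L G := by
  refine SG_ind (P := fun x => (baseW T.W L).map f x * (baseW T.W L).map g y ∈ SG L G)
    ?_ ?_ ?_ ?_ hx
  · rw [map_zero, zero_mul]; exact Submodule.zero_mem _
  · intro a b ha hb; rw [map_add, add_mul]; exact Submodule.add_mem _ ha hb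
  · intro c a ha; rw [map_smul, smul_mul_assoc]; exact Submodule.smul_mem _ _ ha
  · intro a ha
    refine SG_ind (P := fun y => (baseW T.W L).map f (AH.em T.W L a) * (baseW T.W L).map g y ∈
      SG L G) ?_ ?_ ?_ ?_ hy
    · rw [map_zero, mul_zero]; exact Submodule.zero_mem _
    · intro b c hb hc; rw [map_add, mul_add]; exact Submodule.add_mem _ hb hc
    · intro c b hb; rw [map_smul, mul_smul_comm]; exact Submodule.smul_mem _ _ hb
    · intro b hb
      rw [em_map, em_map, em_mul]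
      exact em_SG (h a ha b hb)

include hpos in
/-- The types that occur are nonnegative and bounded. -/
lemma part_bound {V : CSub T Y} {r : ℤ × ℤ} (h : V ⊓ T.pq Y r.1 r.2 ≠ ⊥) :
    0 ≤ r.1 ∧ 0 ≤ r.2 ∧ r.1 + r.2 ≤ 2 * Y.dim := by
  obtain ⟨x, hx, hx0⟩ := Submodule.exists_mem_ne_zero_of_ne_bot h
  obtain ⟨h1, h2, -, h3⟩ := type_bound hpos hx.2 hx0
  exact ⟨h1, h2, h3⟩

include hpos in
/-- **The splitting of the sub-Hodge structures on large powers.** -/
theorem split [FiniteDimensional T.W.K L] [IsGalois T.W.K L] {B R n : ℕ} (hB1 : 1 ≤ B)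
    (hB : ∀ l, M.B.deg l ≤ B) (hR1 : 1 ≤ R) (hR : 2 * Z.dim ≤ R)
    (hn : lenBound (Fintype.card ι) B R < n + 1) {i c : ℕ}
    {V : Submodule T.W.K (T.W.H (Z.prod (pw X n)))} (hV : Graded T _ (SG ℂ V) (Tps i c)) :
    V ≤ Submodule.span T.W.K {x | IsExt T Z X n i c x} := by
  classical
  have hKL : Algebra.IsAlgebraic T.W.K L := inferInstance
  let σ₀ : L →ₐ[T.W.K] ℂ := IsAlgClosed.lift
  obtain ⟨φ, hφ⟩ := exists_coordMap M.B Z n
  have hψ' := fun σ => exists_coordMap (M.C σ) Z n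
  choose ψ hψ using hψ'
  have hcomp : ∀ σ I x, csH σ Z (φ I x) = ψ σ I (csH σ (Z.prod (pw X n)) x) := by
    intro σ I x
    obtain ⟨z, rfl⟩ := exists_coord (Z := Z) M.B n x
    rw [hφ, map_sum]
    simp only [csH_zm]
    rw [hψ]
  -- the types under the coordinate maps
  have hψt : ∀ σ I p q x, x ∈ T.pq (Z.prod (pw X n)) p q →
      ψ σ I x ∈ T.pq Z (p + (-∑ j, M.p σ (I j))) (q + (-∑ j, M.q σ (I j))) := by
    intro σ I p q x hx
    obtain ⟨z, rfl⟩ := exists_coord (Z := Z) (M.C σ) n x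
    rw [hψ, ← sub_eq_add_neg, ← sub_eq_add_neg]
    exact type_coord T (M.type σ) hx I
  let U : (Fin (n + 1) → ι) → Submodule (baseW T.W L).K ((baseW T.W L).H Z) :=
    fun I => (SG L V).map (φ I)
  have hUσ : ∀ σ I, Graded T Z (csub σ (U I))
      {r | (r.1 + ∑ j, M.p σ (I j), r.2 + ∑ j, M.q σ (I j)) ∈ Tps i c} := by
    intro σ I
    have h1 : csub σ (U I) = (csub σ (SG L V)).map (ψ σ I) := csub_map σ _ _ _ (hcomp σ I)
    rw [h1, csub_SG]
    have h2 := hV.map (ψ σ I) (-∑ j, M.p σ (I j), -∑ j, M.q σ (I j)) (hψt σ I)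
    simp only [sub_neg_eq_add] at h2
    exact h2
  intro x hx
  apply mem_of_SG (L := L)
  obtain ⟨z, hz⟩ := exists_coord (Z := Z) M.B n (AH.em T.W L x)
  have hzU : ∀ I, z I ∈ U I := by
    intro I
    refine ⟨AH.em T.W L x, em_SG hx, ?_⟩
    rw [hz, hφ]
  rw [hz]
  refine Submodule.sum_mem _ fun I _ => ?_
  by_cases hz0 : z I = 0
  · rw [hz0, zm, map_zero, zero_mul]
    exact Submodule.zero_mem _
  -- the restricted gradings
  have hUr := fun σ => (hUσ σ I).restrict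
  have hne : ∀ σ : L →ₐ[T.W.K] ℂ, ∃ r : ℤ × ℤ,
      (r.1 + ∑ j, M.p σ (I j), r.2 + ∑ j, M.q σ (I j)) ∈ Tps i c ∧
      csub σ (U I) ⊓ T.pq Z r.1 r.2 ≠ ⊥ := by
    intro σ
    by_contra hcon
    have h1 : {r : ℤ × ℤ | r ∈ {r : ℤ × ℤ |
        (r.1 + ∑ j, M.p σ (I j), r.2 + ∑ j, M.q σ (I j)) ∈ Tps i c} ∧
        csub σ (U I) ⊓ T.pq Z r.1 r.2 ≠ ⊥} = ∅ := by
      ext r
      simp only [Set.mem_ofPred_eq, Set.mem_empty_iff_false, iff_false]
      intro h
      exact hcon ⟨r, h⟩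
    have h2 := hUr σ
    rw [h1, Graded, iSup_of_empty] at h2
    have h3 := h2 (csub_mem σ (hzU I))
    rw [Submodule.mem_bot] at h3
    exact hz0 (csH_inj σ (by rw [h3, map_zero]))
  -- the inequalities
  have hbd : ∀ (σ : L →ₐ[T.W.K] ℂ) (l : ι), 0 ≤ M.p σ l ∧ M.p σ l ≤ B ∧ 0 ≤ M.q σ l ∧
      M.q σ l ≤ B := by
    intro σ l
    obtain ⟨h1, h2, h3⟩ := deg_eq M hpos σ l
    have h4 : (M.B.deg l : ℤ) ≤ B := by exact_mod_cast hB l
    refine ⟨h2, ?_, h3, ?_⟩ <;> linarith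
  let f : (L →ₐ[T.W.K] ℂ) × Bool → ι → ℕ := fun kk l =>
    (if kk.2 then M.p kk.1 l else M.q kk.1 l).toNat
  have hfp : ∀ σ l, (f (σ, true) l : ℤ) = M.p σ l := fun σ l => by
    simp only [f, if_true]
    exact Int.toNat_of_nonneg (hbd σ l).1
  have hfq : ∀ σ l, (f (σ, false) l : ℤ) = M.q σ l := fun σ l => by
    simp only [f, Bool.false_eq_true, if_false]
    exact Int.toNat_of_nonneg (hbd σ l).2.2.1
  have hnek : Nonempty ((L →ₐ[T.W.K] ℂ) × Bool) := ⟨(σ₀, true)⟩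
  have hcnt : ∀ {s : ℕ} (K : Fin s → ι) (f : ι → ℤ), ∑ l, f l * (cnt K l : ℤ) = ∑ j, f (K j) := by
    intro s K f
    rw [sum_cnt K f]
    exact Finset.sum_congr rfl fun l _ => by rw [nsmul_eq_mul, mul_comm]
  obtain ⟨m, v, hm1, hm2, hm3, hm4, hm5, hm6⟩ := cone_split f hB1 hR1 (by
      rintro ⟨σ, s⟩ l
      obtain ⟨g1, g2, g3, g4⟩ := hbd σ l
      cases s
      · have := hfq σ l; omega
      · have := hfp σ l; omega) (cnt I) c (by
      rintro ⟨σ, s⟩
      obtain ⟨r, hr1, hr2⟩ := hne σ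
      obtain ⟨h1, h2, h3⟩ := part_bound hpos hr2
      have h5 : (2 * Z.dim : ℤ) ≤ R := by exact_mod_cast hR
      cases s
      · simp only [hfq]
        rw [hcnt]
        have h4 := hr1.2.2
        simp only at h4
        linarith
      · simp only [hfp]
        rw [hcnt]
        have h4 := hr1.2.1
        simp only at h4
        linarith) (by
      rw [sum_cnt_one]
      exact hn)
  obtain ⟨b, a, e', e, hperm', h1, h2⟩ := exists_subword I m hm1
  have hperm : (List.ofFn e ++ List.ofFn e').Perm (List.finRange (n + 1)) :=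
    List.perm_append_comm.trans hperm'
  have ha : ∑ l, m l = b := by rw [← h1, sum_cnt_one]
  have hlen : a + b = n + 1 := by
    have := hperm.length_eq
    simpa using this
  rw [sum_cnt_one] at hm4
  obtain ⟨a, rfl⟩ : ∃ r, a = r + 1 := ⟨a - 1, by omega⟩
  obtain ⟨b, rfl⟩ : ∃ r, b = r + 1 := ⟨b - 1, by omega⟩
  obtain ⟨ε, hε⟩ := mon_split M.B I e e' hperm
  have hsplit : ∀ (f : ι → ℤ), ∑ j, f (I j) = ∑ j, f ((I ∘ e) j) + ∑ j, f ((I ∘ e') j) := by
    intro f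
    rw [sum_cnt I f, sum_cnt (I ∘ e) f, sum_cnt (I ∘ e') f, h1, h2, ← Finset.sum_add_distrib]
    refine Finset.sum_congr rfl fun l _ => ?_
    rw [← add_smul, Pi.sub_apply, Nat.sub_add_cancel (hm1 l)]
  have hm5' : ∀ kk, (v : ℤ) ≤ ∑ j, (f kk ((I ∘ e') j) : ℤ) := by
    intro kk
    have h3 := hm5 kk
    rw [← h1] at h3
    rwa [hcnt (I ∘ e') (fun l => (f kk l : ℤ))] at h3
  have hm6' : ∀ kk, ∑ j, (f kk ((I ∘ e') j) : ℤ) - v ≤ max (∑ j, (f kk (I j) : ℤ) - c) 0 := by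
    intro kk
    have h3 := hm6 kk
    rw [← h1] at h3
    rwa [hcnt (I ∘ e') (fun l => (f kk l : ℤ)), hcnt I (fun l => (f kk l : ℤ))] at h3
  -- the degrees
  set dI'' : ℕ := ∑ j, M.B.deg ((I ∘ e') j) with hdI''
  have hdeg : ∀ σ : L →ₐ[T.W.K] ℂ, ∑ j, M.p σ ((I ∘ e') j) + ∑ j, M.q σ ((I ∘ e') j) = dI'' := by
    intro σ
    rw [← Finset.sum_add_distrib, hdI'']
    push_cast
    exact Finset.sum_congr rfl fun j _ => (deg_eq M hpos σ _).1
  have hnn : ∀ (σ : L →ₐ[T.W.K] ℂ) {s : ℕ} (K : Fin s → ι), 0 ≤ ∑ j, M.p σ (K j) ∧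
      0 ≤ ∑ j, M.q σ (K j) := fun σ s K =>
    ⟨Finset.sum_nonneg fun j _ => (hbd σ _).1, Finset.sum_nonneg fun j _ => (hbd σ _).2.2.1⟩
  have hi : dI'' ≤ i := by
    obtain ⟨r, hr1, hr2⟩ := hne σ₀
    obtain ⟨g1, g2, g3⟩ := part_bound hpos hr2
    have h3 := hdeg σ₀
    have h4 := hnn σ₀ (I ∘ e)
    have h5 := hsplit (M.p σ₀)
    have h6 := hsplit (M.q σ₀)
    have h7 := hr1.1
    simp only at h7
    have h8 : (dI'' : ℤ) ≤ i := by linarith [h4.1, h4.2]
    exact_mod_cast h8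
  -- the bounds
  have hpv : ∀ σ : L →ₐ[T.W.K] ℂ, (v : ℤ) ≤ ∑ j, M.p σ ((I ∘ e') j) ∧
      (v : ℤ) ≤ ∑ j, M.q σ ((I ∘ e') j) := by
    intro σ
    have h3 := hm5' (σ, true)
    have h4 := hm5' (σ, false)
    simp only [hfp] at h3
    simp only [hfq] at h4
    exact ⟨h3, h4⟩
  have hsl : ∀ σ : L →ₐ[T.W.K] ℂ,
      ∑ j, M.p σ ((I ∘ e') j) - v ≤ max (∑ j, M.p σ (I j) - c) 0 ∧
      ∑ j, M.q σ ((I ∘ e') j) - v ≤ max (∑ j, M.q σ (I j) - c) 0 := by
    intro σ
    have h3 := hm6' (σ, true)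
    have h4 := hm6' (σ, false)
    simp only [hfp] at h3
    simp only [hfq] at h4
    exact ⟨h3, h4⟩
  -- the second factor
  obtain ⟨V'', hV'', hw⟩ := exists_rat (T := T) (L := L) (S := Tps dI'' v)
    (U := Submodule.span (baseW T.W L).K {mon M.B b (I ∘ e')}) (fun σ => by
      have h3 : csub σ (Submodule.span (baseW T.W L).K {mon M.B b (I ∘ e')}) ≤
          Submodule.span _ {mon (M.C σ) b (I ∘ e')} := by
        rw [csub, Submodule.span_le]
        rintro _ ⟨y, hy, rfl⟩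
        obtain ⟨t, rfl⟩ := Submodule.mem_span_singleton.1 hy
        rw [csH_smul, csH_mon]
        exact Submodule.smul_mem _ _ (Submodule.mem_span_singleton_self _)
      intro y hy
      refine (le_iSup (fun r : Tps dI'' v => csub σ (Submodule.span (baseW T.W L).K
        {mon M.B b (I ∘ e')}) ⊓ T.pq (pw X b) r.1.1 r.1.2)
        ⟨(∑ j, M.p σ ((I ∘ e') j), ∑ j, M.q σ ((I ∘ e') j)), hdeg σ, hpv σ⟩) ⟨hy, ?_⟩
      obtain ⟨t, rfl⟩ := Submodule.mem_span_singleton.1 (h3 hy)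
      exact Submodule.smul_mem _ _ (mon_type T (M.type σ) b (I ∘ e')))
  -- the first factor
  obtain ⟨V', hV', hv⟩ := exists_rat (T := T) (L := L) (S := Tps (i - dI'') (c - v))
    (U := (U I).map (zmL M.B Z a (I ∘ e))) (fun σ => by
      have h3 : csub σ ((U I).map (zmL M.B Z a (I ∘ e))) =
          (csub σ (U I)).map (zmL (M.C σ) Z a (I ∘ e)) :=
        csub_map σ _ _ _ fun y => csH_zm M σ a y (I ∘ e)
      rw [h3]
      have h4 := (hUr σ).map (zmL (M.C σ) Z a (I ∘ e))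
        (∑ j, M.p σ ((I ∘ e) j), ∑ j, M.q σ ((I ∘ e) j)) (fun p q y hy =>
          T.dec.mul (T.dec.map (fst Z (pw X a)) hy)
            (T.dec.map (snd Z (pw X a)) (mon_type T (M.type σ) a (I ∘ e))))
      refine h4.mono ?_
      rintro r ⟨hr1, hr2⟩
      obtain ⟨g1, g2, g3⟩ := part_bound hpos hr2
      obtain ⟨g4, g5, g6⟩ := hr1
      simp only at g1 g2 g3 g4 g5 g6
      have e1 := hsplit (M.p σ)
      have e2 := hsplit (M.q σ)
      have e3 := hdeg σ
      obtain ⟨e4, e5⟩ := hsl σ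
      have e6 : ((i - dI'' : ℕ) : ℤ) = i - dI'' := by push_cast [Nat.cast_sub hi]; ring
      have e7 : ((c - v : ℕ) : ℤ) = c - v := by push_cast [Nat.cast_sub hm2]; ring
      refine ⟨?_, ?_, ?_⟩
      · rw [e6]; linarith
      · rw [e7]
        rcases le_total (∑ j, M.p σ (I j) - (c : ℤ)) 0 with h5 | h5
        · rw [max_eq_right h5] at e4; linarith
        · rw [max_eq_left h5] at e4; linarith
      · rw [e7]
        rcases le_total (∑ j, M.q σ (I j) - (c : ℤ)) 0 with h5 | h5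
        · rw [max_eq_right h5] at e5; linarith
        · rw [max_eq_left h5] at e5; linarith)
  -- the product
  have hprod : zm M.B n (z I) I = ε • ((baseW T.W L).map (projZ Z X e) (zm M.B a (z I) (I ∘ e)) *
      (baseW T.W L).map (snd Z (pw X n) ≫ proj X e') (mon M.B b (I ∘ e'))) := by
    have hmap : (baseW T.W L).map (projZ Z X e) (zm M.B a (z I) (I ∘ e)) =
        (baseW T.W L).map (fst Z (pw X n)) (z I) * (baseW T.W L).map (snd Z (pw X n))
          ((baseW T.W L).map (proj X e) (mon M.B a (I ∘ e))) := by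
      rw [zm, map_mul, ← (baseW T.W L).map_comp, ← (baseW T.W L).map_comp, projZ, Obj.lift_fst,
        Obj.lift_snd, ← (baseW T.W L).map_comp]
    rw [hmap, zm, hε, ← proj_eq, ← proj_eq, map_smul, mul_smul_comm, map_mul, mul_assoc,
      (baseW T.W L).map_comp]
  rw [hprod]
  refine Submodule.smul_mem _ _ (SG_mul2 (projZ Z X e) (snd Z (pw X n) ≫ proj X e') ?_
    (hv ⟨z I, hzU I, rfl⟩) (hw (Submodule.mem_span_singleton_self _)))
  intro y hy w hw
  refine Submodule.subset_span ⟨a, b, e, e', i - dI'', dI'', c - v, v, V', V'', y, w, hperm,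
    Nat.sub_add_cancel hi, Nat.sub_add_cancel hm2, hV', hV'', hy, hw, ?_⟩
  rw [T.W.map_comp (snd Z (pw X n)) (proj X e')]

end Pool.Agent.N204.GH
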