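import Pool.Agent.R940.HMain

/-!
# Graded subspaces of the cohomology with extended coefficients
-/

set_option linter.unusedVariables false
set_option linter.unusedSectionVars false

open CategoryTheory AlgebraicGeometry CategoryTheory.Limits TensorProduct

universe u v

namespace Pool.Agent.N204.GH

open Pool.Agent.H914 Pool.Agent.H447 Pool.Agent.W534 Pool.Agent.Y163 VarClass Obj WeilCohomology
  Module
open Pool.Agent.Y121 Pool.Agent.R940

variable {k : Type u} [Field k] {𝒱 : VarClass k} {ops : CycleOps 𝒱}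

variable {T : AH.HodgeTheory ops} {X Y Y' Z : 𝒱.Obj} {L : Type} [Field L] [Algebra T.W.K L]

/-- Subspaces of the cohomology with complex coefficients. -/
abbrev CSub (T : AH.HodgeTheory ops) (Y : 𝒱.Obj) :=
  Submodule (baseW T.W ℂ).K ((baseW T.W ℂ).H Y)

/-- The subspace is the sum of its intersections with the `H^(p,q)`, `(p, q) ∈ S`. -/
def Graded (T : AH.HodgeTheory ops) (Y : 𝒱.Obj) (V : CSub T Y) (S : Set (ℤ × ℤ)) : Prop :=
  V ≤ ⨆ r : S, V ⊓ T.pq Y r.1.1 r.1.2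

lemma Graded.mono {V : CSub T Y} {S S' : Set (ℤ × ℤ)} (h : Graded T Y V S) (hS : S ⊆ S') :
    Graded T Y V S' := by
  refine le_trans h (iSup_le fun r => ?_)
  exact le_iSup (fun r : S' => V ⊓ T.pq Y r.1.1 r.1.2) ⟨r.1, hS r.2⟩

lemma Graded.iSup {α : Type*} {V : α → CSub T Y} {S : Set (ℤ × ℤ)}
    (h : ∀ a, Graded T Y (V a) S) : Graded T Y (⨆ a, V a) S := by
  refine iSup_le fun a => (h a).trans (iSup_mono fun r => ?_)
  exact inf_le_inf_right _ (le_iSup V a)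

lemma Graded.bot {S : Set (ℤ × ℤ)} : Graded T Y (⊥ : CSub T Y) S := bot_le

/-- Only the nonzero parts matter. -/
lemma Graded.restrict {V : CSub T Y} {S : Set (ℤ × ℤ)} (h : Graded T Y V S) :
    Graded T Y V {r | r ∈ S ∧ V ⊓ T.pq Y r.1 r.2 ≠ ⊥} := by
  refine le_trans h (iSup_le fun r => ?_)
  by_cases hr : V ⊓ T.pq Y r.1.1 r.1.2 = ⊥
  · rw [hr]; exact bot_le
  · exact le_iSup (fun r : {r | r ∈ S ∧ V ⊓ T.pq Y r.1 r.2 ≠ ⊥} => V ⊓ T.pq Y r.1.1 r.1.2)
      ⟨r.1, r.2, hr⟩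

/-- The image under a linear map that shifts the types. -/
lemma Graded.map {V : CSub T Y} {S : Set (ℤ × ℤ)} (h : Graded T Y V S)
    (φ : (baseW T.W ℂ).H Y →ₗ[(baseW T.W ℂ).K] (baseW T.W ℂ).H Y') (t : ℤ × ℤ)
    (hφ : ∀ p q x, x ∈ T.pq Y p q → φ x ∈ T.pq Y' (p + t.1) (q + t.2)) :
    Graded T Y' (V.map φ) {r | (r.1 - t.1, r.2 - t.2) ∈ S} := by
  rintro _ ⟨x, hx, rfl⟩
  have h1 := h hx
  have h2 : (⨆ r : S, V ⊓ T.pq Y r.1.1 r.1.2) ≤ (⨆ r : {r : ℤ × ℤ | (r.1 - t.1, r.2 - t.2) ∈ S},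
      V.map φ ⊓ T.pq Y' r.1.1 r.1.2).comap φ := by
    refine iSup_le fun r => ?_
    rintro y ⟨hy1, hy2⟩
    refine (le_iSup (fun r : {r : ℤ × ℤ | (r.1 - t.1, r.2 - t.2) ∈ S} =>
      V.map φ ⊓ T.pq Y' r.1.1 r.1.2) ⟨(r.1.1 + t.1, r.1.2 + t.2), ?_⟩) ⟨⟨y, hy1, rfl⟩, hφ _ _ _ hy2⟩
    simp only [Set.mem_ofPred_eq, add_sub_cancel_right]
    exact r.2
  exact h2 h1

/-- The subspace of the cohomology with complex coefficients spanned by the conjugates of the
elements. -/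
noncomputable def csub (σ : L →ₐ[T.W.K] ℂ) (U : Submodule (baseW T.W L).K ((baseW T.W L).H Y)) :
    CSub T Y :=
  Submodule.span _ (csH σ Y '' (U : Set ((baseW T.W L).H Y)))

lemma csub_mem (σ : L →ₐ[T.W.K] ℂ) {U : Submodule (baseW T.W L).K ((baseW T.W L).H Y)}
    {x : (baseW T.W L).H Y} (hx : x ∈ U) : csH σ Y x ∈ csub σ U :=
  Submodule.subset_span ⟨x, hx, rfl⟩

/-- Compatible maps. -/
lemma csub_map (σ : L →ₐ[T.W.K] ℂ) (U : Submodule (baseW T.W L).K ((baseW T.W L).H Y))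
    (φ : (baseW T.W L).H Y →ₗ[(baseW T.W L).K] (baseW T.W L).H Y')
    (ψ : (baseW T.W ℂ).H Y →ₗ[(baseW T.W ℂ).K] (baseW T.W ℂ).H Y')
    (h : ∀ x, csH σ Y' (φ x) = ψ (csH σ Y x)) : csub σ (U.map φ) = (csub σ U).map ψ := by
  rw [csub, csub, Submodule.map_span]
  congr 1
  ext y
  constructor
  · rintro ⟨_, ⟨x, hx, rfl⟩, rfl⟩
    exact ⟨csH σ Y x, ⟨x, hx, rfl⟩, (h x).symm⟩
  · rintro ⟨_, ⟨x, hx, rfl⟩, rfl⟩
    exact ⟨φ x, ⟨x, hx, rfl⟩, h x⟩

/-- The extension of a rational subspace. -/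
lemma csub_SG (σ : L →ₐ[T.W.K] ℂ) (V : Submodule T.W.K (T.W.H Y)) :
    csub σ (SG L V) = SG ℂ V := by
  apply le_antisymm
  · rw [csub, Submodule.span_le]
    rintro _ ⟨x, hx, rfl⟩
    refine SG_ind (P := fun x => csH σ Y x ∈ (SG ℂ V : CSub T Y)) ?_ ?_ ?_ ?_ hx
    · rw [map_zero]; exact Submodule.zero_mem _
    · intro a b ha hb; rw [map_add]; exact Submodule.add_mem _ ha hb
    · intro c a ha; rw [csH_smul]; exact Submodule.smul_mem _ _ ha
    · intro a ha; rw [csH_em]; exact em_SG ha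
  · intro x hx
    refine SG_ind (P := fun x => x ∈ csub σ (SG L V)) (Submodule.zero_mem _)
      (fun _ _ => Submodule.add_mem _) (fun c _ => Submodule.smul_mem _ c) ?_ hx
    intro a ha
    rw [← csH_em σ]
    exact csub_mem σ (em_SG ha)

/-- **Descent**: a subspace over a Galois extension all of whose conjugates are graded is contained
in the extension of a rational graded subspace. -/
theorem exists_rat [FiniteDimensional T.W.K L] [IsGalois T.W.K L] {S : Set (ℤ × ℤ)}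
    {U : Submodule (baseW T.W L).K ((baseW T.W L).H Y)} (hU : ∀ σ, Graded T Y (csub σ U) S) :
    ∃ V : Submodule T.W.K (T.W.H Y), Graded T Y (SG ℂ V) S ∧ U ≤ SG L V := by
  classical
  have hKL : Algebra.IsAlgebraic T.W.K L := inferInstance
  let σ₀ : L →ₐ[T.W.K] ℂ := IsAlgClosed.lift
  have hgal : ∀ (τ : L ≃ₐ[T.W.K] L) (y : L ⊗[T.W.K] T.W.H Y),
      gal (T.W.H Y) τ y = cs (T.W.H Y) (τ : L →ₐ[T.W.K] L) y := by
    intro τ y
    refine cs_ind (P := fun y => gal (T.W.H Y) τ y = cs (T.W.H Y) (τ : L →ₐ[T.W.K] L) y)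
      ?_ ?_ ?_ y
    · rw [map_zero, map_zero]
    · intro x y hx hy; rw [map_add, map_add, hx, hy]
    · intro l a; rw [gal_tmul, cs_tmul]; rfl
  let G : Set (T.W.H Y) := {a | ∃ x : (baseW T.W L).H Y, x ∈ U ∧
    (1 : L) ⊗ₜ[T.W.K] a = ∑ τ : L ≃ₐ[T.W.K] L, gal (T.W.H Y) τ (show L ⊗[T.W.K] T.W.H Y from x)}
  let V : Submodule T.W.K (T.W.H Y) := Submodule.span T.W.K G
  have hUV : U ≤ SG L V := by
    intro x hx
    obtain ⟨x', hx'⟩ : ∃ x' : L ⊗[T.W.K] T.W.H Y, x' = x := ⟨x, rfl⟩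
    have key : ∀ c : L, ∃ a : T.W.H Y, a ∈ V ∧
        (1 : L) ⊗ₜ[T.W.K] a = ∑ τ : L ≃ₐ[T.W.K] L, gal (T.W.H Y) τ (c • x') := by
      intro c
      obtain ⟨a, ha⟩ := exists_of_invariant (K := T.W.K) (L := L) (V := T.W.H Y)
        (x := ∑ τ : L ≃ₐ[T.W.K] L, gal (T.W.H Y) τ (c • x')) (by
          intro ρ
          rw [map_sum]
          simp only [gal_gal]
          exact Fintype.sum_equiv (Equiv.mulLeft ρ) _ _ fun τ => rfl)
      refine ⟨a, Submodule.subset_span ⟨(show (baseW T.W L).H Y from c • x'), ?_, ha⟩, ha⟩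
      rw [hx']
      exact Submodule.smul_mem U c hx
    have h1 := mem_span_traces (K := T.W.K) (L := L) (V := T.W.H Y) x'
    have h2 : Submodule.span L (Set.range fun c : L =>
        ∑ τ : L ≃ₐ[T.W.K] L, gal (T.W.H Y) τ (c • x')) ≤ (V.baseChange L) := by
      rw [Submodule.span_le]
      rintro _ ⟨c, rfl⟩
      obtain ⟨a, ha, h⟩ := key c
      beta_reduce
      rw [← h]
      exact Submodule.tmul_mem_baseChange_of_mem _ ha
    have h3 := h2 h1
    rw [hx'] at h3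
    exact h3
  refine ⟨V, ?_, hUV⟩
  have h4 : (SG ℂ V : CSub T Y) = ⨆ σ : L →ₐ[T.W.K] ℂ, csub σ U := by
    apply le_antisymm
    · intro x hx
      refine SG_ind (P := fun x => x ∈ ⨆ σ : L →ₐ[T.W.K] ℂ, csub σ U) (Submodule.zero_mem _)
        (fun _ _ => Submodule.add_mem _) (fun c _ => Submodule.smul_mem _ c) ?_ hx
      intro a ha
      induction ha using Submodule.span_induction with
      | mem a ha =>
        obtain ⟨x, hx, ha⟩ := ha
        have h5 : AH.em T.W ℂ a = cs (T.W.H Y) σ₀ ((1 : L) ⊗ₜ[T.W.K] a) := by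
          rw [cs_tmul, map_one]; rfl
        rw [h5, ha, map_sum]
        have h6 : ∀ τ : L ≃ₐ[T.W.K] L, (show (baseW T.W ℂ).H Y from cs (T.W.H Y) σ₀
            (gal (T.W.H Y) τ (show L ⊗[T.W.K] T.W.H Y from x))) ∈
            ⨆ σ : L →ₐ[T.W.K] ℂ, csub σ U := by
          intro τ
          rw [hgal, cs_comp]
          exact (le_iSup (fun σ : L →ₐ[T.W.K] ℂ => csub σ U) (σ₀.comp (τ : L →ₐ[T.W.K] L)))
            (csub_mem _ hx)
        exact Submodule.sum_mem _ fun τ _ => h6 τ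
      | zero =>
        have : AH.em T.W ℂ (0 : T.W.H Y) = 0 := TensorProduct.tmul_zero _ _
        rw [this]
        exact Submodule.zero_mem _
      | add a b _ _ ha hb =>
        have : AH.em T.W ℂ (a + b) = AH.em T.W ℂ a + AH.em T.W ℂ b := TensorProduct.tmul_add _ _ _
        rw [this]
        exact Submodule.add_mem _ ha hb
      | smul c a _ ha =>
        have : AH.em T.W ℂ (c • a) = (show (baseW T.W ℂ).K from algebraMap T.W.K ℂ c) •
            AH.em T.W ℂ a := by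
          have h7 : (1 : ℂ) ⊗ₜ[T.W.K] (c • a) = (algebraMap T.W.K ℂ c) • ((1 : ℂ) ⊗ₜ[T.W.K] a) := by
            rw [TensorProduct.tmul_smul, algebraMap_smul]
          exact h7
        rw [this]
        exact Submodule.smul_mem _ _ ha
    · refine iSup_le fun σ => ?_
      rw [← csub_SG σ V, csub, csub]
      exact Submodule.span_mono (Set.image_mono hUV)
  rw [h4]
  exact Graded.iSup hU

section Coord

variable {W : WeilCohomology.{u, v} ops} {ι : Type v} [Fintype ι] [DecidableEq ι]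

/-- The coordinates with respect to the monomials. -/
lemma exists_coordMap (B : HBasis W X ι) (Z : 𝒱.Obj) (n : ℕ) :
    ∃ φ : (Fin (n + 1) → ι) → (W.H (Z.prod (pw X n)) →ₗ[W.K] W.H Z),
      ∀ (z : (Fin (n + 1) → ι) → W.H Z) I, φ I (∑ J, zm B n (z J) J) = z I := by
  classical
  let ζ := Module.finBasis W.K (W.H Z)
  obtain ⟨β, hβ⟩ := exists_prodBasis B n ζ
  refine ⟨fun I => ∑ m, (LinearMap.toSpanSingleton W.K _ (ζ m)) ∘ₗ β.coord (m, I), fun z I => ?_⟩
  rw [LinearMap.sum_apply]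
  conv_rhs => rw [← ζ.sum_repr (z I)]
  refine Finset.sum_congr rfl fun m _ => ?_
  rw [LinearMap.comp_apply, LinearMap.toSpanSingleton_apply, Basis.coord_apply, repr_prod B hβ z m I]

/-- The product with a monomial, as a linear map. -/
noncomputable def zmL (B : HBasis W X ι) (Z : 𝒱.Obj) (n : ℕ) (I : Fin (n + 1) → ι) :
    W.H Z →ₗ[W.K] W.H (Z.prod (pw X n)) where
  toFun z := zm B n z I
  map_add' z z' := zm_add B n z z' I
  map_smul' c z := zm_smul B n c z I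

end Coord

end Pool.Agent.N204.GH
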